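import Pool.Agent.N165.KM.Contract

/-!
# MP_9f99c5_ag: the nef cone conjecture passes to the targets of contractions

`Pool.Agent.Y167.cone S` is the convex cone generated by the finite set `S`.
-/

namespace Pool.Agent.Results.MP_9f99c5_ag.Contractions

open Pool.Agent.Y167 (cone)
open Pool.Agent.N165.KM

/-- The vector `x` has integral coordinates. -/
def Integral {ρ : ℕ} (x : Fin ρ → ℝ) : Prop := ∀ i, ∃ m : ℤ, x i = m

/-- The numerical data of a klt Calabi–Yau pair `(X, Δ)`. A basis of the lattice of the classes of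
Cartier divisors identifies `N^1(X)` with `ℝ^ρ` and this lattice with `ℤ^ρ`. -/
structure CYPair where
  /-- the Picard number -/
  ρ : ℕ
  /-- the nef cone -/
  Nef : Set (Fin ρ → ℝ)
  /-- the effective cone -/
  Eff : Set (Fin ρ → ℝ)
  /-- the group `Aut(X, Δ)` -/
  Aut : Type
  [grp : Group Aut]
  /-- the pull-back of classes by an automorphism -/
  pull : Aut → ((Fin ρ → ℝ) ≃ₗ[ℝ] (Fin ρ → ℝ))
  pull_mul : ∀ f g, pull (f * g) = pull g * pull f
  pull_int : ∀ f x, Integral x → Integral (pull f x)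
  pull_nef : ∀ f, ∀ x ∈ Nef, pull f x ∈ Nef
  pull_eff : ∀ f, ∀ x ∈ Eff, pull f x ∈ Eff
  /-- the nef cone is a closed convex cone without lines, with nonempty interior -/
  nef_closed : IsClosed Nef
  nef_add : ∀ x ∈ Nef, ∀ y ∈ Nef, x + y ∈ Nef
  nef_smul : ∀ t : ℝ, 0 ≤ t → ∀ x ∈ Nef, t • x ∈ Nef
  nef_line : ∀ x ∈ Nef, -x ∈ Nef → x = 0
  ample : (interior Nef).Nonempty
  /-- the effective cone is a convex cone which contains the ample classes -/
  eff_add : ∀ x ∈ Eff, ∀ y ∈ Eff, x + y ∈ Eff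
  eff_smul : ∀ t : ℝ, 0 ≤ t → ∀ x ∈ Eff, t • x ∈ Eff
  ample_eff : interior Nef ⊆ Eff

attribute [instance] CYPair.grp

/-- The cone conjecture for `(X, Δ)`: some rational polyhedral cone `cone S` is a fundamental domain
for the action of `Aut(X, Δ)` on `Nef^e(X)`. -/
def ConeConjecture (X : CYPair) : Prop :=
  ∃ S : Finset (Fin X.ρ → ℝ), (∀ s ∈ S, Integral s) ∧
    X.Nef ∩ X.Eff = ⋃ f : X.Aut, X.pull f '' cone S ∧
    ∀ f : X.Aut, X.pull f ≠ 1 → interior (cone S) ∩ X.pull f '' interior (cone S) = ∅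

/-- A contraction `π : X → Y` (a morphism with connected fibres) between Calabi–Yau pairs, such as a
birational contraction with `Δ_Y = π_* Δ_X`. -/
structure IsContraction (X Y : CYPair) where
  /-- the pull-back `π^*` -/
  up : (Fin Y.ρ → ℝ) →ₗ[ℝ] (Fin X.ρ → ℝ)
  up_inj : Function.Injective up
  /-- the rational classes on `Y` are those with rational pull-back -/
  up_rat : ∃ m : ℕ, 0 < m ∧ ∀ y, Integral (up y) → Integral ((m : ℝ) • y)
  up_nef : ∀ y, y ∈ Y.Nef ↔ up y ∈ X.Nef
  up_eff : ∀ y, y ∈ Y.Eff ↔ up y ∈ X.Eff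
  /-- the classes coming from `Y` form a face of the nef cone (those of degree zero on the
  contracted curves) -/
  face : ∀ a ∈ X.Nef, ∀ b ∈ X.Nef, (∃ y, up y = a + b) → ∃ y, up y = a
  /-- an automorphism of `X` which preserves the space of the classes coming from `Y` descends -/
  descend : ∀ f : X.Aut, (∀ y, ∃ z, up z = X.pull f (up y)) →
    ∃ f' : Y.Aut, ∀ y, up (Y.pull f' y) = X.pull f (up y)

theorem sandwich (X : CYPair) : Sandwich X.Nef (X.Nef ∩ X.Eff) where
  closed := X.nef_closed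
  add := X.nef_add
  smul := X.nef_smul
  pointed := X.nef_line
  int := X.ample
  Nsub := Set.inter_subset_left
  Nint := fun x hx => ⟨interior_subset hx, X.ample_eff hx⟩
  Nadd := fun x hx y hy => ⟨X.nef_add x hx.1 y hy.1, X.eff_add x hx.2 y hy.2⟩
  Nsmul := fun t ht x hx => ⟨X.nef_smul t ht x hx.1, X.eff_smul t ht x hx.2⟩

/-- If `(X, Δ_X)` satisfies the cone conjecture and `X → Y` is a contraction onto `(Y, Δ_Y)`, then
`(Y, Δ_Y)` satisfies the cone conjecture. -/
theorem result (X Y : CYPair) (π : IsContraction X Y) (hX : ConeConjecture X) :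
    ConeConjecture Y :=
  contraction (sandwich X) (sandwich Y) X.pull_mul Y.pull_mul
    (fun f x hx => X.pull_int f x hx) (fun f x hx => ⟨X.pull_nef f x hx.1, X.pull_eff f x hx.2⟩)
    (fun f x hx => Y.pull_int f x hx) (fun f x hx => ⟨Y.pull_nef f x hx.1, Y.pull_eff f x hx.2⟩)
    π.up π.up_inj (fun y => and_congr (π.up_nef y) (π.up_eff y))
    (fun a ha b hb h => π.face a ha.1 b hb.1 h) π.up_rat π.descend hX

end Pool.Agent.Results.MP_9f99c5_ag.Contractions
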